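import Mathlib
import Pool.Agent.Lib.MP_5bc52d_co.H3.Words

/-!
# The value of a set without chains of three elements on two letters
-/

open Finset Polynomial

set_option linter.unusedSectionVars false

namespace Pool.Agent.Lib.MP_5bc52d_co.Key

open Splitting Cyc Cut

variable {P : Type*} [Fintype P] [DecidableEq P] {B : Type*} [CommRing B]

open Classical in
/-- the value on two letters of opposite kinds -/
theorem NL_pair' {r : P → P → Prop} (ht : ∀ x y z, r x y → r y z → r x z)
    {v : Bool → P → ℤ} (hv : ∀ c p, v (!c) p = - v c p) (c : Bool) (α β : B)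
    (U : Finset P) :
    NL r v [(!c, α), (c, β)] U =
      if PlP r (fun a b => r b a) (v c) U U then
        α ^ (U \ AL (fun a b => r b a) (-(v c)) U).card * (β ^ (U \ AL r (-(v c)) U).card *
          (α + β) ^ (Fr r (fun a b => r b a) (v c) U).card)
      else 0 := by
  have hvc : v (!c) = -(v c) := funext (fun p => hv c p)
  have h1 : NL r v [(!c, α), (c, β)] U =
      ∑ I ∈ wks r (-(v c)) U, ∑ I' ∈ wks r (v c) (U \ I),
        (if I ∪ I' = U then 1 else 0) * (α ^ I.card * β ^ I'.card) := by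
    rw [NL]
    simp only [hvc]
    apply Finset.sum_congr rfl
    intro I hI
    rw [NL, Finset.mul_sum]
    apply Finset.sum_congr rfl
    intro I' hI'
    rw [NL]
    have h2 : ((U \ I) \ I' = ∅) ↔ I ∪ I' = U := by
      rw [Finset.sdiff_eq_empty_iff_subset]
      constructor
      · intro h
        apply Finset.Subset.antisymm
        · exact Finset.union_subset (mem_wks.mp hI).1
            ((mem_wks.mp hI').1.trans Finset.sdiff_subset)
        · intro x hx
          by_cases hxI : x ∈ I
          · exact Finset.mem_union_left _ hxI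
          · exact Finset.mem_union_right _ (h (Finset.mem_sdiff.mpr ⟨hx, hxI⟩))
      · intro h x hx
        rw [Finset.mem_sdiff] at hx
        rw [← h] at hx
        exact (Finset.mem_union.mp hx.1).resolve_left hx.2
    by_cases h : I ∪ I' = U
    · rw [if_pos h, if_pos (h2.mpr h)]
      ring
    · rw [if_neg h, if_neg (fun h' => h (h2.mp h'))]
      ring
  rw [h1, sum_split (r := r) (r' := fun a b => r b a) ht (fun x y => Iff.rfl)
    (fun X => if X = U then (1 : B) else 0) α β]
  split_ifs with h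
  · rw [Finset.sum_eq_single U]
    · rw [if_pos rfl, one_mul]
    · intro W _ hne
      rw [if_neg hne, zero_mul]
    · intro h'
      exact absurd (mem_Pl.mpr h) h'
  · apply Finset.sum_eq_zero
    intro W hW
    rw [if_neg, zero_mul]
    rintro rfl
    exact h (mem_Pl.mp hW)

/-- no chain of three elements -/
def Low (r : P → P → Prop) (U : Finset P) : Prop :=
  ∀ a ∈ U, ∀ b ∈ U, ∀ c ∈ U, r a b → ¬ r b c

theorem Low.mono {r : P → P → Prop} {U V : Finset P} (h : Low r U) (hVU : V ⊆ U) : Low r V :=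
  fun a ha b hb c hc => h a (hVU ha) b (hVU hb) c (hVU hc)

open Classical in
/-- the local minima of `w` -/
noncomputable def Src (r : P → P → Prop) (w : P → ℤ) (U : Finset P) : Finset P :=
  U.filter (fun x => ∀ a ∈ U, (r x a ∨ r a x) → w x < w a)

theorem mem_Src {r : P → P → Prop} {w : P → ℤ} {U : Finset P} {x : P} :
    x ∈ Src r w U ↔ x ∈ U ∧ ∀ a ∈ U, (r x a ∨ r a x) → w x < w a := by
  classical
  rw [Src, Finset.mem_filter]

open Classical in
/-- the elements with an element above, which are not local minima of `w` -/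
noncomputable def NBt (r : P → P → Prop) (w : P → ℤ) (U : Finset P) : Finset P :=
  U.filter (fun x => x ∉ Src r w U ∧ ∃ a ∈ U, r x a)

open Classical in
/-- the elements with an element below, which are not local minima of `w` -/
noncomputable def NT (r : P → P → Prop) (w : P → ℤ) (U : Finset P) : Finset P :=
  U.filter (fun x => x ∉ Src r w U ∧ ∃ a ∈ U, r a x)

theorem mem_NBt {r : P → P → Prop} {w : P → ℤ} {U : Finset P} {x : P} :
    x ∈ NBt r w U ↔ x ∈ U ∧ x ∉ Src r w U ∧ ∃ a ∈ U, r x a := by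
  classical
  rw [NBt, Finset.mem_filter]

theorem mem_NT {r : P → P → Prop} {w : P → ℤ} {U : Finset P} {x : P} :
    x ∈ NT r w U ↔ x ∈ U ∧ x ∉ Src r w U ∧ ∃ a ∈ U, r a x := by
  classical
  rw [NT, Finset.mem_filter]

section low
variable {r : P → P → Prop} {w : P → ℤ} {U : Finset P} (hU : Low r U)
include hU

theorem mem_AL_lo {x : P} :
    x ∈ AL r (-w) U ↔ x ∈ U ∧ ∀ a ∈ U, r a x → w x < w a := by
  rw [mem_AL]
  constructor
  · rintro ⟨hx, h⟩
    refine ⟨hx, fun a ha hax => ?_⟩
    have := h a ha x hx hax (Or.inl rfl)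
    simp only [Pi.neg_apply] at this
    omega
  · rintro ⟨hx, h⟩
    refine ⟨hx, fun a ha b hb hab hbx => ?_⟩
    rcases hbx with rfl | hbx
    · have := h a ha hab
      simp only [Pi.neg_apply]
      omega
    · exact absurd hbx (hU a ha b hb x hx hab)

theorem mem_AL_hi {x : P} :
    x ∈ AL (fun a b => r b a) (-w) U ↔ x ∈ U ∧ ∀ a ∈ U, r x a → w x < w a := by
  rw [mem_AL]
  constructor
  · rintro ⟨hx, h⟩
    refine ⟨hx, fun a ha hax => ?_⟩
    have := h a ha x hx hax (Or.inl rfl)
    simp only [Pi.neg_apply] at this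
    omega
  · rintro ⟨hx, h⟩
    refine ⟨hx, fun a ha b hb hab hbx => ?_⟩
    rcases hbx with rfl | hbx
    · have := h a ha hab
      simp only [Pi.neg_apply]
      omega
    · exact absurd hab (hU x hx b hb a ha hbx)

theorem Low.placeable : PlP r (fun a b => r b a) w U U := by
  refine ⟨Finset.Subset.refl _, fun a ha _ _ _ => ha, fun x hx => ?_⟩
  by_cases h : ∃ a ∈ U, r a x
  · obtain ⟨a, ha, hax⟩ := h
    right
    exact (mem_AL_hi hU).mpr ⟨hx, fun b hb hxb => absurd hxb (hU a ha x hx b hb hax)⟩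
  · left
    exact (mem_AL_lo hU).mpr ⟨hx, fun a ha hax => absurd ⟨a, ha, hax⟩ h⟩

theorem Fr_eq : Fr r (fun a b => r b a) w U = Src r w U := by
  ext x
  rw [Fr, Finset.mem_inter, mem_AL_lo hU, mem_AL_hi hU, mem_Src]
  constructor
  · rintro ⟨⟨hx, h1⟩, -, h2⟩
    exact ⟨hx, fun a ha h => h.elim (h2 a ha) (h1 a ha)⟩
  · rintro ⟨hx, h⟩
    exact ⟨⟨hx, fun a ha h' => h a ha (Or.inr h')⟩, hx, fun a ha h' => h a ha (Or.inl h')⟩

theorem sdiff_hi_eq : U \ AL (fun a b => r b a) (-w) U = NBt r w U := by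
  ext x
  rw [Finset.mem_sdiff, mem_AL_hi hU, mem_NBt, mem_Src]
  constructor
  · rintro ⟨hx, h⟩
    push Not at h
    obtain ⟨a, ha, hxa, hle⟩ := h hx
    exact ⟨hx, fun h' => absurd (h'.2 a ha (Or.inl hxa)) (not_lt.mpr hle), a, ha, hxa⟩
  · rintro ⟨hx, h, a, ha, hxa⟩
    refine ⟨hx, fun h' => h ⟨hx, fun b hb hb' => ?_⟩⟩
    rcases hb' with hb' | hb'
    · exact h'.2 b hb hb'
    · exact absurd hxa (hU b hb x hx a ha hb')

theorem sdiff_lo_eq : U \ AL r (-w) U = NT r w U := by
  ext x
  rw [Finset.mem_sdiff, mem_AL_lo hU, mem_NT, mem_Src]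
  constructor
  · rintro ⟨hx, h⟩
    push Not at h
    obtain ⟨a, ha, hxa, hle⟩ := h hx
    exact ⟨hx, fun h' => absurd (h'.2 a ha (Or.inr hxa)) (not_lt.mpr hle), a, ha, hxa⟩
  · rintro ⟨hx, h, a, ha, hxa⟩
    refine ⟨hx, fun h' => h ⟨hx, fun b hb hb' => ?_⟩⟩
    rcases hb' with hb' | hb'
    · exact absurd hb' (hU a ha x hx b hb hxa)
    · exact h'.2 b hb hb'

/-- **the value of a set without chains of three elements on two letters** -/
theorem NL_low (ht : ∀ x y z, r x y → r y z → r x z) {v : Bool → P → ℤ}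
    (hv : ∀ c p, v (!c) p = - v c p) (c : Bool) (hw : v c = w) (α β : B) :
    NL r v [(!c, α), (c, β)] U =
      α ^ (NBt r w U).card * β ^ (NT r w U).card * (α + β) ^ (Src r w U).card := by
  classical
  rw [NL_pair' ht hv, hw, if_pos hU.placeable, Fr_eq hU, sdiff_hi_eq hU, sdiff_lo_eq hU]
  ring

/-- the three parts -/
theorem card_low : (NBt r w U).card + (NT r w U).card + (Src r w U).card = U.card := by
  classical
  have h1 : Disjoint (NBt r w U) (NT r w U) := by
    rw [Finset.disjoint_left]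
    intro x hx hx'
    obtain ⟨hxU, -, a, ha, hxa⟩ := mem_NBt.mp hx
    obtain ⟨-, -, b, hb, hbx⟩ := mem_NT.mp hx'
    exact hU b hb x hxU a ha hbx hxa
  have h2 : Disjoint (NBt r w U ∪ NT r w U) (Src r w U) := by
    rw [Finset.disjoint_left]
    intro x hx hx'
    rcases Finset.mem_union.mp hx with h | h
    · exact (mem_NBt.mp h).2.1 hx'
    · exact (mem_NT.mp h).2.1 hx'
  rw [← Finset.card_union_of_disjoint h1, ← Finset.card_union_of_disjoint h2]
  congr 1
  ext x
  rw [Finset.mem_union, Finset.mem_union]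
  constructor
  · rintro ((h | h) | h)
    · exact (mem_NBt.mp h).1
    · exact (mem_NT.mp h).1
    · exact (mem_Src.mp h).1
  · intro hx
    by_cases hs : x ∈ Src r w U
    · exact Or.inr hs
    · left
      have h3 := hs
      rw [mem_Src] at h3
      push Not at h3
      obtain ⟨a, ha, hxa, -⟩ := h3 hx
      rcases hxa with hxa | hxa
      · exact Or.inl (mem_NBt.mpr ⟨hx, hs, a, ha, hxa⟩)
      · exact Or.inr (mem_NT.mpr ⟨hx, hs, a, ha, hxa⟩)

end low

end Pool.Agent.Lib.MP_5bc52d_co.Key
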