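import Mathlib
import Pool.Agent.Lib.MP_5bc52d_co.Cut.Base
import Pool.Agent.Lib.MP_5bc52d_co.Key.Word

/-!
# A derivation which kills products

For a homomorphism `Θ : A →+* A[X][X]` which is the identity when the inner variable is one, the
derivative at one is a derivation. It is combined with the difference of two elementary
derivations.
-/

open Finset Polynomial

set_option linter.unusedSectionVars false

namespace Pool.Agent.Lib.MP_5bc52d_co.Height2

open Splitting Cyc Cut

section der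
variable {A : Type*} [CommRing A]

/-- the first order term at one of the coefficient of `X ^ k` -/
noncomputable def DD (Θ : A →+* A[X][X]) (k : ℕ) : A →+ A :=
  AddMonoidHom.mk' (fun f => (derivative ((Θ f).coeff k)).eval 1) (fun f g => by
    rw [map_add, coeff_add, derivative_add, eval_add])

theorem DD_apply (Θ : A →+* A[X][X]) (k : ℕ) (f : A) :
    DD Θ k f = (derivative ((Θ f).coeff k)).eval 1 := rfl

theorem DD_mul {Θ : A →+* A[X][X]} (hΘ : ∀ f, (Θ f).map (evalRingHom 1) = C f) (k : ℕ)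
    (f g : A) : DD Θ k (f * g) = f * DD Θ k g + g * DD Θ k f := by
  have h1 : ∀ (f : A) (i : ℕ), ((Θ f).coeff i).eval 1 = if i = 0 then f else 0 := by
    intro f i
    have h2 := congrArg (fun p : A[X] => p.coeff i) (hΘ f)
    rw [coeff_map, coeff_C, coe_evalRingHom] at h2
    exact h2
  rw [DD_apply, map_mul, coeff_mul, derivative_sum, eval_finsetSum]
  have h3 : ∀ ij ∈ antidiagonal k,
      (derivative ((Θ f).coeff ij.1 * (Θ g).coeff ij.2)).eval 1 =
        (if ij = (0, k) then f * DD Θ k g else 0) + (if ij = (k, 0) then g * DD Θ k f else 0) := by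
    rintro ⟨i, j⟩ hij
    rw [HasAntidiagonal.mem_antidiagonal] at hij
    dsimp only at hij
    dsimp only
    rw [derivative_mul, eval_add, eval_mul, eval_mul, h1, h1, DD_apply, DD_apply]
    by_cases hi : i = 0
    · have hj : j = k := by omega
      subst hi
      subst hj
      rw [if_pos rfl, if_pos (show ((0 : ℕ), j) = (0, j) from rfl)]
      by_cases h0 : j = 0
      · subst h0
        rw [if_pos rfl, if_pos (show ((0 : ℕ), 0) = (0, 0) from rfl)]
        ring
      · rw [if_neg h0, if_neg (fun h => h0 (congrArg Prod.snd h))]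
        ring
    · rw [if_neg hi, if_neg (fun h => hi (congrArg Prod.fst h))]
      by_cases hj : j = 0
      · have hi' : i = k := by omega
        subst hj
        subst hi'
        rw [if_pos rfl, if_pos (show (i, 0) = (i, 0) from rfl)]
        ring
      · rw [if_neg hj, if_neg (fun h => hj (congrArg Prod.snd h))]
        ring
  rw [Finset.sum_congr rfl h3, Finset.sum_add_distrib, Finset.sum_ite_eq', Finset.sum_ite_eq',
    if_pos (HasAntidiagonal.mem_antidiagonal.mpr (zero_add k)),
    if_pos (HasAntidiagonal.mem_antidiagonal.mpr (add_zero k))]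

/-- the difference of the two elementary derivations -/
noncomputable def Dl (S S' : Splitting A) : A →+ A :=
  AddMonoidHom.mk' (fun f => S.qp 1 f - S'.qp 1 f) (fun f g => by
    rw [S.qp_add, S'.qp_add]
    ring)

theorem Dl_apply (S S' : Splitting A) (f : A) : Dl S S' f = S.qp 1 f - S'.qp 1 f := rfl

theorem qp_one_mul (S : Splitting A) (f g : A) :
    S.qp 1 (f * g) = f * S.qp 1 g + g * S.qp 1 f := by
  rw [S.qp_mul, Finset.Nat.antidiagonal_succ]
  simp only [Finset.Nat.antidiagonal_zero, Finset.map_singleton, Finset.sum_cons,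
    Finset.sum_singleton]
  simp [S.qp_zero, mul_comm]

theorem Dl_mul (S S' : Splitting A) (f g : A) :
    Dl S S' (f * g) = f * Dl S S' g + g * Dl S S' f := by
  rw [Dl_apply, Dl_apply, Dl_apply, qp_one_mul, qp_one_mul]
  ring

end der

section kill
variable {Q : Subring R}

/-- the constant coefficient -/
noncomputable def cc (Q : Subring R) : Q →+* ℚ :=
  (MvPowerSeries.constantCoeff (σ := ℕ) (R := ℚ)).comp Q.subtype

theorem cc_apply (f : Q) : cc Q f = MvPowerSeries.constantCoeff (f : R) := rfl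

theorem cc_homQ {d : ℕ} (hd : 1 ≤ d) {f : Q} (hf : f ∈ homQ Q d) : cc Q f = 0 := by
  rw [cc_apply, ← MvPowerSeries.coeff_zero_eq_constantCoeff_apply]
  apply hf
  rw [deg_zero]
  omega

theorem kill {S S' : Splitting Q}
    (hS : ∀ (d : ℕ) (f : Q), f ∈ homQ Q d → ∀ k : ℕ, k ≤ d → S.qp k f ∈ homQ Q (d - k))
    (hS' : ∀ (d : ℕ) (f : Q), f ∈ homQ Q d → ∀ k : ℕ, k ≤ d → S'.qp k f ∈ homQ Q (d - k))
    (hpair : ∀ f ∈ homQ Q 1, S.qp 1 f = S'.qp 1 f)
    {Θ : Q →+* Q[X][X]} (hΘ : ∀ f, (Θ f).map (evalRingHom 1) = C f) (ρ : ℕ) :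
    ∀ (m a b : ℕ) (f g : Q), 1 ≤ a → 1 ≤ b → f ∈ homQ Q a → g ∈ homQ Q b →
      cc Q (DD Θ ρ ((Dl S S')^[m] (f * g))) = 0 := by
  have hD : ∀ (d : ℕ) (f : Q), 1 ≤ d → f ∈ homQ Q d →
      (Dl S S' f = 0 ∧ d = 1) ∨ (2 ≤ d ∧ Dl S S' f ∈ homQ Q (d - 1)) := by
    intro d f hd hf
    by_cases h1 : d = 1
    · subst h1
      left
      exact ⟨by rw [Dl_apply, hpair f hf, sub_self], rfl⟩
    · right
      exact ⟨by omega, (homQ Q (d - 1)).sub_mem (hS d f hf 1 hd) (hS' d f hf 1 hd)⟩
  intro m
  induction m with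
  | zero =>
    intro a b f g ha hb hf hg
    rw [Function.iterate_zero, id, DD_mul hΘ, map_add, map_mul, map_mul, cc_homQ ha hf,
      cc_homQ hb hg, zero_mul, zero_mul, add_zero]
  | succ m ih =>
    intro a b f g ha hb hf hg
    rw [Function.iterate_succ_apply, Dl_mul, iterate_map_add, map_add, map_add]
    have h1 : cc Q (DD Θ ρ ((Dl S S')^[m] (f * Dl S S' g))) = 0 := by
      rcases hD b g hb hg with h | h
      · rw [h.1, mul_zero, iterate_map_zero, map_zero, map_zero]
      · exact ih a (b - 1) f _ ha (by omega) hf h.2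
    have h2 : cc Q (DD Θ ρ ((Dl S S')^[m] (g * Dl S S' f))) = 0 := by
      rcases hD a f ha hf with h | h
      · rw [h.1, mul_zero, iterate_map_zero, map_zero, map_zero]
      · exact ih b (a - 1) g _ hb (by omega) hg h.2
    rw [h1, h2, add_zero]

/-- the criterion -/
theorem irreducible_of_kill (hQ : ∀ F : R, F ∈ Q ↔ IsQS F) {S S' : Splitting Q}
    (hS : ∀ (d : ℕ) (f : Q), f ∈ homQ Q d → ∀ k : ℕ, k ≤ d → S.qp k f ∈ homQ Q (d - k))
    (hS' : ∀ (d : ℕ) (f : Q), f ∈ homQ Q d → ∀ k : ℕ, k ≤ d → S'.qp k f ∈ homQ Q (d - k))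
    (hpair : ∀ f ∈ homQ Q 1, S.qp 1 f = S'.qp 1 f)
    {Θ : Q →+* Q[X][X]} (hΘ : ∀ f, (Θ f).map (evalRingHom 1) = C f) (ρ m n : ℕ) {K : Q}
    (hn : 1 ≤ n) (hK : K ∈ homQ Q n) (hne : cc Q (DD Θ ρ ((Dl S S')^[m] K)) ≠ 0) :
    Irreducible K := by
  have hK0 : K ≠ 0 := by
    rintro rfl
    apply hne
    rw [iterate_map_zero, map_zero, map_zero]
  constructor
  · intro hu
    have h1 := homQ_unique hK0 hK (isUnit_mem_homQ hQ hu)
    omega
  · intro f g hfg
    have hfg0 : f * g ≠ 0 := by rw [← hfg]; exact hK0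
    obtain ⟨a, b, hab, ha, hb⟩ := homQ_factor hQ hfg0 (hfg ▸ hK)
    have hf0 : f ≠ 0 := left_ne_zero_of_mul hfg0
    have hg0 : g ≠ 0 := right_ne_zero_of_mul hfg0
    by_cases h1 : a = 0
    · left
      subst h1
      exact isUnit_of_homQ_zero hQ ha hf0
    · by_cases h2 : b = 0
      · right
        subst h2
        exact isUnit_of_homQ_zero hQ hb hg0
      · exfalso
        apply hne
        rw [hfg]
        exact kill hS hS' hpair hΘ ρ m a b f g (by omega) (by omega) ha hb

end kill

end Pool.Agent.Lib.MP_5bc52d_co.Height2
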