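import Mathlib
import Pool.Agent.Lib.MP_5bc52d_co.Height2.Alg

/-!
# The recursion for posets without chains of three elements
-/

open Finset Polynomial

set_option linter.unusedSectionVars false

namespace Pool.Agent.Lib.MP_5bc52d_co.Height2

open Splitting Cyc Cut Key

variable {P : Type*} [Fintype P] [DecidableEq P]

open Classical in
/-- the minimal elements of `U` -/
noncomputable def mins (r : P → P → Prop) (U : Finset P) : Finset P :=
  U.filter (fun x => ∀ a ∈ U, ¬ r a x)

theorem mem_mins {r : P → P → Prop} {U : Finset P} {x : P} :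
    x ∈ mins r U ↔ x ∈ U ∧ ∀ a ∈ U, ¬ r a x := by
  classical
  rw [mins, Finset.mem_filter]

section rec
variable {A : Type*} [CommRing A]

theorem qp_one_Gamma {r : P → P → Prop} (hi : ∀ x, ¬ r x x) {w : P → ℤ} (S : Splitting A)
    (Γ : Finset P → A)
    (hE : ∀ U k, S.qp k (Γ U) = ∑ I ∈ (wks r w U) with I.card = k, Γ (U \ I)) (U : Finset P) :
    S.qp 1 (Γ U) = ∑ x ∈ mins r U, Γ (U.erase x) := by
  have h1 : (wks r w U).filter (fun I => I.card = 1) =
      (mins r U).image (fun x => ({x} : Finset P)) := by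
    ext I
    rw [Finset.mem_filter, mem_wks, Finset.mem_image]
    constructor
    · rintro ⟨hW, hc⟩
      obtain ⟨x, rfl⟩ := Finset.card_eq_one.mp hc
      refine ⟨x, mem_mins.mpr ⟨hW.1 (Finset.mem_singleton_self x), fun a ha hax => ?_⟩, rfl⟩
      have h2 := (hW.2 a ha x (Finset.mem_singleton_self x) hax).1
      rw [Finset.mem_singleton] at h2
      subst h2
      exact hi _ hax
    · rintro ⟨x, hx, rfl⟩
      rw [mem_mins] at hx
      refine ⟨⟨Finset.singleton_subset_iff.mpr hx.1, fun a ha b hb hab => ?_⟩,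
        Finset.card_singleton x⟩
      rw [Finset.mem_singleton] at hb
      subst hb
      exact absurd hab (hx.2 a ha)
  rw [hE, h1, Finset.sum_image (fun x _ y _ h => Finset.singleton_injective h)]
  apply Finset.sum_congr rfl
  intro x _
  rw [Finset.sdiff_singleton_eq_erase]

end rec

/-- `U` is placeable on two letters -/
theorem mem_Pl_self {r r' : P → P → Prop} (hr : ∀ x y, r' x y ↔ r y x) {w : P → ℤ}
    (h3 : ∀ a b c, r a b → ¬ r b c) (U : Finset P) : U ∈ Pl r r' w U := by
  refine mem_Pl.mpr ⟨Finset.Subset.refl _, fun a ha _ _ _ => ha, fun x hx => ?_⟩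
  by_cases h : ∃ a ∈ U, r a x
  · right
    obtain ⟨a, -, hax⟩ := h
    refine mem_AL.mpr ⟨hx, fun c hc b hb hcb h' => ?_⟩
    exfalso
    rcases h' with h' | h'
    · subst h'
      exact h3 a b c hax ((hr _ _).mp hcb)
    · exact h3 a x b hax ((hr _ _).mp h')
  · left
    push Not at h
    refine mem_AL.mpr ⟨hx, fun c hc b hb hcb h' => ?_⟩
    exfalso
    rcases h' with h' | h'
    · subst h'
      exact h c hc hcb
    · exact h b hb h'

/-- `x` has the smallest label among the elements of `U` comparable with it -/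
def Src (r : P → P → Prop) (w : P → ℤ) (U : Finset P) (x : P) : Prop :=
  ∀ y ∈ U, (r x y ∨ r y x) → w x < w y

theorem mem_Fr_iff {r r' : P → P → Prop} (hr : ∀ x y, r' x y ↔ r y x) {w : P → ℤ}
    (h3 : ∀ a b c, r a b → ¬ r b c) {U : Finset P} {x : P} :
    x ∈ Fr r r' w U ↔ x ∈ U ∧ Src r w U x := by
  rw [Fr, Finset.mem_inter, mem_AL, mem_AL]
  constructor
  · rintro ⟨⟨hx, h1⟩, -, h2⟩
    refine ⟨hx, fun y hy h => ?_⟩
    rcases h with h | h
    · have h4 := h2 y hy x hx ((hr _ _).mpr h) (Or.inl rfl)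
      simp only [Pi.neg_apply] at h4
      omega
    · have h4 := h1 y hy x hx h (Or.inl rfl)
      simp only [Pi.neg_apply] at h4
      omega
  · rintro ⟨hx, h⟩
    refine ⟨⟨hx, fun a ha b hb hab h' => ?_⟩, hx, fun a ha b hb hab h' => ?_⟩
    · rcases h' with h' | h'
      · subst h'
        have h4 := h a ha (Or.inr hab)
        simp only [Pi.neg_apply]
        omega
      · exact absurd h' (h3 a b x hab)
    · have hba := (hr _ _).mp hab
      rcases h' with h' | h'
      · subst h'
        have h4 := h a ha (Or.inl hba)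
        simp only [Pi.neg_apply]
        omega
      · exact absurd hba (h3 x b a ((hr _ _).mp h'))

section base
variable {A : Type*} [CommRing A]

theorem Theta_coeff {r r' : P → P → Prop} (ht : ∀ x y z, r x y → r y z → r x z)
    (hr : ∀ x y, r' x y ↔ r y x) (hi : ∀ x, ¬ r x x) {w : P → ℤ} (hw : Function.Injective w)
    (h3 : ∀ a b c, r a b → ¬ r b c) (S : Splitting A) (Γ : Finset P → A)
    (hE : ∀ U k, S.qp k (Γ U) = ∑ I ∈ (wks r w U) with I.card = k, Γ (U \ I))
    (hempty : Γ ∅ = 1) (U : Finset P) :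
    (S.Theta₁ (Γ U)).coeff U.card =
      (-X) ^ (U \ AL r' (-w) U).card * (1 - X) ^ (Fr r r' w U).card := by
  have hfil : (∑ p ∈ pairs r w U, C ((-X) ^ p.1.card * C (Γ (U \ (p.1 ∪ p.2)))) *
      X ^ (p.1.card + p.2.card) : A[X][X]).coeff U.card =
      ∑ p ∈ pairs r w U, (if p.1 ∪ p.2 = U then 1 else 0) *
        ((-X) ^ p.1.card * 1 ^ p.2.card) := by
    rw [finsetSum_coeff]
    apply Finset.sum_congr rfl
    rintro ⟨I, J⟩ hp
    have hc := pair_card' hp
    have hp' := mem_pairs.mp hp
    dsimp only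
    have hsub : I ∪ J ⊆ U := Finset.union_subset hp'.1.1 (hp'.2.1.trans Finset.sdiff_subset)
    rw [coeff_C_mul_X_pow]
    by_cases h : I ∪ J = U
    · rw [if_pos h, h, Finset.sdiff_self, hempty, C_1, if_pos (by rw [hc, h])]
      ring
    · rw [if_neg h, zero_mul, if_neg]
      intro h4
      exact h (Finset.eq_of_subset_of_card_le hsub (by rw [h4, hc]))
  rw [Theta₁_Gamma S Γ hi hw hE, hfil,
    ← sum_pairs (fun I J => (if I ∪ J = U then (1 : A[X]) else 0) *
      ((-X) ^ I.card * 1 ^ J.card)),
    sum_split ht hr (fun W => if W = U then (1 : A[X]) else 0) (-X) 1,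
    Finset.sum_eq_single U]
  · rw [if_pos rfl]
    have : (-X + 1 : A[X]) = 1 - X := by ring
    rw [this]
    ring
  · intro W _ hW
    rw [if_neg hW, zero_mul]
  · intro h
    exact absurd (mem_Pl_self hr h3 U) h

theorem deriv_value (a x : ℕ) :
    (derivative ((-X) ^ a * (1 - X) ^ (x + 1) : A[X])).eval 1 =
      if x = 0 then -(-1) ^ a else 0 := by
  rw [derivative_mul, eval_add, eval_mul, eval_mul, derivative_pow_succ]
  simp only [eval_mul, eval_pow, eval_sub, eval_neg, eval_X, eval_one, sub_self,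
    derivative_sub, derivative_one, derivative_X, zero_sub, ne_eq, Nat.add_eq_zero_iff,
    one_ne_zero, and_false, not_false_eq_true, zero_pow, mul_zero, zero_add]
  by_cases h : x = 0
  · subst h
    simp
  · rw [if_neg h]
    simp [h]

end base

end Pool.Agent.Lib.MP_5bc52d_co.Height2
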