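import Mathlib
import Pool.Agent.Lib.MP_5bc52d_co.Height2.Rec

/-!
# Posets without chains of three elements: the functional does not vanish
-/

open Finset Polynomial

set_option linter.unusedSectionVars false

namespace Pool.Agent.Lib.MP_5bc52d_co.Height2

open Splitting Cyc Cut Key

variable {P : Type*} [Fintype P] [DecidableEq P]

/-- `x` and `y` are comparable and the label increases from `x` to `y` -/
def Stp (r : P → P → Prop) (w : P → ℤ) (x y : P) : Prop := (r x y ∨ r y x) ∧ w x < w y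

open Classical in
/-- the elements which can be reached from `x` -/
noncomputable def FR (r : P → P → Prop) (w : P → ℤ) (x : P) : Finset P :=
  univ.filter (fun y => Relation.ReflTransGen (Stp r w) x y)

section reach
variable {r : P → P → Prop} {w : P → ℤ}

theorem mem_FR {x y : P} : y ∈ FR r w x ↔ Relation.ReflTransGen (Stp r w) x y := by
  classical
  rw [FR, Finset.mem_filter]
  exact ⟨fun h => h.2, fun h => ⟨Finset.mem_univ _, h⟩⟩

theorem self_mem_FR (x : P) : x ∈ FR r w x := mem_FR.mpr Relation.ReflTransGen.refl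

theorem reach_lt {x y : P} (h : Relation.ReflTransGen (Stp r w) x y) : x = y ∨ w x < w y := by
  induction h with
  | refl => exact Or.inl rfl
  | tail _ hbc ih =>
    right
    rcases ih with rfl | ih
    · exact hbc.2
    · exact ih.trans hbc.2

theorem sub_FR (hi : ∀ x, ¬ r x x) (hw : Function.Injective w) {U : Finset P} {q : P}
    (huniq : ∀ u ∈ U, Src r w U u → u = q) : U ⊆ FR r w q := by
  intro x hx
  by_contra hcon
  have hne : (U.filter (fun u => u ∉ FR r w q)).Nonempty :=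
    ⟨x, Finset.mem_filter.mpr ⟨hx, hcon⟩⟩
  obtain ⟨u, hu, hmin⟩ := Finset.exists_min_image _ w hne
  rw [Finset.mem_filter] at hu
  have huq : u ≠ q := by
    rintro rfl
    exact hu.2 (self_mem_FR _)
  have hns : ¬ Src r w U u := fun h => huq (huniq u hu.1 h)
  rw [Src] at hns
  push Not at hns
  obtain ⟨y, hy, hcomp, hle⟩ := hns
  have hne' : y ≠ u := by
    rintro rfl
    rcases hcomp with h | h
    · exact hi _ h
    · exact hi _ h
  have hlt : w y < w u := lt_of_le_of_ne hle (fun h => hne' (hw h))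
  by_cases hyF : y ∈ FR r w q
  · exact hu.2 (mem_FR.mpr ((mem_FR.mp hyF).tail ⟨hcomp.symm, hlt⟩))
  · have := hmin y (Finset.mem_filter.mpr ⟨hy, hyF⟩)
    omega

theorem src_FR (hi : ∀ x, ¬ r x x) (x : P) : Src r w (FR r w x) x := by
  intro y hy hcomp
  rcases reach_lt (mem_FR.mp hy) with h | h
  · subst h
    rcases hcomp with h | h
    · exact absurd h (hi _)
    · exact absurd h (hi _)
  · exact h

theorem uniq_FR {x u : P} (hu : u ∈ FR r w x) (hs : Src r w (FR r w x) u) : u = x := by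
  rcases (mem_FR.mp hu).cases_tail with h | ⟨v, hv, hvu⟩
  · exact h
  · have h1 := hs v (mem_FR.mpr hv) hvu.1.symm
    have h2 := hvu.2
    omega

theorem Fr_FR {r' : P → P → Prop} (hr : ∀ x y, r' x y ↔ r y x) (hi : ∀ x, ¬ r x x)
    (h3 : ∀ a b c, r a b → ¬ r b c) (x : P) : Fr r r' w (FR r w x) = {x} := by
  ext u
  rw [mem_Fr_iff hr h3, Finset.mem_singleton]
  constructor
  · rintro ⟨h1, h2⟩
    exact uniq_FR h1 h2
  · rintro rfl
    exact ⟨self_mem_FR _, src_FR hi _⟩

end reach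

section sign
variable {r r' : P → P → Prop}

open Classical in
/-- the elements which are not minimal -/
noncomputable def Yt (r : P → P → Prop) : Finset P := univ.filter (fun x => ∃ a, r a x)

theorem mem_Yt {x : P} : x ∈ Yt r ↔ ∃ a, r a x := by
  classical
  rw [Yt, Finset.mem_filter]
  exact ⟨fun h => h.2, fun h => ⟨Finset.mem_univ _, h⟩⟩

theorem card_Yt (U : Finset P) : (U ∩ Yt r).card + (U \ Yt r).card = U.card :=
  Finset.card_inter_add_card_sdiff U (Yt r)

theorem forced_eq (hr : ∀ x y, r' x y ↔ r y x) {w : P → ℤ} (h3 : ∀ a b c, r a b → ¬ r b c)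
    {U : Finset P} {q : P} (hq : Fr r r' w U = {q}) :
    U \ AL r' (-w) U = (U \ Yt r).erase q := by
  have hqF : q ∈ U ∧ Src r w U q := (mem_Fr_iff hr h3).mp (hq ▸ Finset.mem_singleton_self q)
  ext x
  rw [Finset.mem_sdiff, Finset.mem_erase, Finset.mem_sdiff, mem_Yt]
  constructor
  · rintro ⟨hx, hA⟩
    rw [mem_AL] at hA
    push Not at hA
    obtain ⟨a, ha, b, hb, hab, h', hle⟩ := hA hx
    have hba := (hr _ _).mp hab
    have hbx : b = x := by
      rcases h' with h' | h'
      · exact h'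
      · exact absurd hba (h3 _ _ _ ((hr _ _).mp h'))
    subst hbx
    simp only [Pi.neg_apply, neg_le_neg_iff] at hle
    refine ⟨?_, hx, ?_⟩
    · rintro rfl
      have := hqF.2 a ha (Or.inl hba)
      omega
    · rintro ⟨c, hc⟩
      exact h3 c b a hc hba
  · rintro ⟨hxq, hx, hY⟩
    refine ⟨hx, fun hA => ?_⟩
    have hns : ¬ Src r w U x := fun hs => by
      have h1 : x ∈ Fr r r' w U := (mem_Fr_iff hr h3).mpr ⟨hx, hs⟩
      rw [hq, Finset.mem_singleton] at h1
      exact hxq h1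
    rw [Src] at hns
    push Not at hns
    obtain ⟨y, hy, hcomp, hle⟩ := hns
    have hxy : r x y := hcomp.resolve_right (fun h => hY ⟨y, h⟩)
    have h1 := (mem_AL.mp hA).2 y hy x hx ((hr _ _).mpr hxy) (Or.inl rfl)
    simp only [Pi.neg_apply] at h1
    omega

end sign

section val
variable {Q : Subring R} {r r' : P → P → Prop}

/-- the value of the functional -/
noncomputable def cv (S S' : Splitting Q) (Γ : Finset P → Q) (ρ m : ℕ) (U : Finset P) : ℚ :=
  cc Q (DD S.Theta₁ ρ ((Dl S S')^[m] (Γ U)))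

/-- the value with a sign -/
noncomputable def gv (r : P → P → Prop) (S S' : Splitting Q) (Γ : Finset P → Q) (ρ m : ℕ)
    (U : Finset P) : ℚ :=
  (-1) ^ (U ∩ Yt r).card * cv S S' Γ ρ m U

theorem cv_succ (hi : ∀ x, ¬ r x x) (hi' : ∀ x, ¬ r' x x) {w w' : P → ℤ} (S S' : Splitting Q)
    (Γ : Finset P → Q)
    (hE : ∀ U k, S.qp k (Γ U) = ∑ I ∈ (wks r w U) with I.card = k, Γ (U \ I))
    (hE' : ∀ U k, S'.qp k (Γ U) = ∑ I ∈ (wks r' w' U) with I.card = k, Γ (U \ I))
    (ρ m : ℕ) (U : Finset P) :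
    cv S S' Γ ρ (m + 1) U =
      ∑ x ∈ mins r U, cv S S' Γ ρ m (U.erase x) - ∑ x ∈ mins r' U, cv S S' Γ ρ m (U.erase x) := by
  have hs : ∀ (s : Finset P) (f : P → Q), cc Q (DD S.Theta₁ ρ ((Dl S S')^[m] (∑ x ∈ s, f x))) =
      ∑ x ∈ s, cc Q (DD S.Theta₁ ρ ((Dl S S')^[m] (f x))) := by
    intro s f
    have h1 : (Dl S S')^[m] (∑ x ∈ s, f x) = ∑ x ∈ s, (Dl S S')^[m] (f x) := by
      induction m with
      | zero => rfl
      | succ m ih => simp only [Function.iterate_succ_apply', ih, map_sum]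
    rw [h1, map_sum, map_sum]
  rw [cv, Function.iterate_succ_apply, Dl_apply, qp_one_Gamma hi S Γ hE U,
    qp_one_Gamma hi' S' Γ hE' U, iterate_map_sub, map_sub, map_sub, hs, hs]
  rfl

theorem gv_succ (hr : ∀ x y, r' x y ↔ r y x) (hi : ∀ x, ¬ r x x)
    (h3 : ∀ a b c, r a b → ¬ r b c) {w w' : P → ℤ} (S S' : Splitting Q)
    (Γ : Finset P → Q)
    (hE : ∀ U k, S.qp k (Γ U) = ∑ I ∈ (wks r w U) with I.card = k, Γ (U \ I))
    (hE' : ∀ U k, S'.qp k (Γ U) = ∑ I ∈ (wks r' w' U) with I.card = k, Γ (U \ I))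
    (ρ m : ℕ) (U : Finset P) :
    gv r S S' Γ ρ (m + 1) U =
      ∑ x ∈ U \ (mins r U ∩ mins r' U), gv r S S' Γ ρ m (U.erase x) := by
  classical
  have hi' : ∀ x, ¬ r' x x := fun x h => hi x ((hr _ _).mp h)
  have e1 : ∀ f : P → ℚ, ∑ x ∈ mins r U, f x = ∑ x ∈ U, if x ∈ mins r U then f x else 0 := by
    intro f
    rw [← Finset.sum_filter]
    apply Finset.sum_congr _ (fun _ _ => rfl)
    ext x
    rw [Finset.mem_filter]
    exact ⟨fun h => ⟨(mem_mins.mp h).1, h⟩, fun h => h.2⟩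
  have e2 : ∀ f : P → ℚ, ∑ x ∈ mins r' U, f x = ∑ x ∈ U, if x ∈ mins r' U then f x else 0 := by
    intro f
    rw [← Finset.sum_filter]
    apply Finset.sum_congr _ (fun _ _ => rfl)
    ext x
    rw [Finset.mem_filter]
    exact ⟨fun h => ⟨(mem_mins.mp h).1, h⟩, fun h => h.2⟩
  have e3 : ∀ f : P → ℚ, ∑ x ∈ U \ (mins r U ∩ mins r' U), f x =
      ∑ x ∈ U, if x ∈ mins r U ∩ mins r' U then 0 else f x := by
    intro f
    rw [Finset.sdiff_eq_filter, Finset.sum_filter]
    apply Finset.sum_congr rfl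
    intro x _
    by_cases h : x ∈ mins r U ∩ mins r' U
    · rw [if_neg (not_not.mpr h), if_pos h]
    · rw [if_pos h, if_neg h]
  rw [gv, cv_succ hi hi' S S' Γ hE hE', e1, e2, e3, ← Finset.sum_sub_distrib, Finset.mul_sum]
  apply Finset.sum_congr rfl
  intro x hx
  by_cases h1 : x ∈ mins r U
  · by_cases h2 : x ∈ mins r' U
    · rw [if_pos h1, if_pos h2, if_pos (Finset.mem_inter.mpr ⟨h1, h2⟩), sub_self, mul_zero]
    · rw [if_pos h1, if_neg h2, if_neg (fun h => h2 (Finset.mem_inter.mp h).2), sub_zero, gv]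
      congr 2
      have hxY : x ∉ Yt r := by
        rw [mem_Yt]
        rintro ⟨a, ha⟩
        apply h2
        exact mem_mins.mpr ⟨hx, fun b _ hb => h3 a x b ha ((hr _ _).mp hb)⟩
      congr 1
      ext y
      rw [Finset.mem_inter, Finset.mem_inter, Finset.mem_erase]
      constructor
      · rintro ⟨h4, h5⟩
        exact ⟨⟨fun h => hxY (h ▸ h5), h4⟩, h5⟩
      · rintro ⟨⟨-, h4⟩, h5⟩
        exact ⟨h4, h5⟩
  · have hL : ∃ a ∈ U, r a x := by
      by_contra h
      push Not at h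
      exact h1 (mem_mins.mpr ⟨hx, h⟩)
    obtain ⟨a, -, ha⟩ := hL
    have h2 : x ∈ mins r' U := mem_mins.mpr ⟨hx, fun b _ hb => h3 a x b ha ((hr _ _).mp hb)⟩
    rw [if_neg h1, if_pos h2, if_neg (fun h => h1 (Finset.mem_inter.mp h).1), zero_sub, gv]
    have hxY : x ∈ U ∩ Yt r := Finset.mem_inter.mpr ⟨hx, mem_Yt.mpr ⟨a, ha⟩⟩
    have h4 : (U.erase x) ∩ Yt r = (U ∩ Yt r).erase x := by
      ext y
      rw [Finset.mem_inter, Finset.mem_erase, Finset.mem_erase, Finset.mem_inter]
      tauto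
    rw [h4, ← Finset.card_erase_add_one hxY, pow_succ]
    ring

/-- the sign of a side -/
def kap (t : Bool) (ρ : ℕ) : ℚ := if t then -(-1) ^ ρ else (-1) ^ ρ

theorem gv_zero (ht : ∀ x y z, r x y → r y z → r x z)
    (hr : ∀ x y, r' x y ↔ r y x) (hi : ∀ x, ¬ r x x) {w : P → ℤ} (hw : Function.Injective w)
    (h3 : ∀ a b c, r a b → ¬ r b c) (S S' : Splitting Q) (Γ : Finset P → Q)
    (hE : ∀ U k, S.qp k (Γ U) = ∑ I ∈ (wks r w U) with I.card = k, Γ (U \ I))
    (hempty : Γ ∅ = 1) (t : Bool) {U : Finset P} (hU : U.Nonempty)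
    (hside : ∀ q, Fr r r' w U = {q} → (q ∈ Yt r ↔ t = true)) :
    kap t U.card * gv r S S' Γ U.card 0 U = if (Fr r r' w U).card = 1 then 1 else 0 := by
  obtain ⟨q, hqU, hqmin⟩ := U.exists_min_image w hU
  have hqF : q ∈ Fr r r' w U := by
    rw [mem_Fr_iff hr h3]
    refine ⟨hqU, fun y hy hcomp => lt_of_le_of_ne (hqmin y hy) (fun h => ?_)⟩
    have := hw h
    subst this
    rcases hcomp with h | h
    · exact hi _ h
    · exact hi _ h
  obtain ⟨x, hx⟩ : ∃ x, (Fr r r' w U).card = x + 1 :=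
    ⟨_, (Nat.sub_add_cancel (Finset.card_pos.mpr ⟨q, hqF⟩)).symm⟩
  have h1 : cv S S' Γ U.card 0 U = if x = 0 then -(-1) ^ (U \ AL r' (-w) U).card else 0 := by
    rw [cv, Function.iterate_zero, id, DD_apply,
      Theta_coeff ht hr hi hw h3 S Γ hE hempty U, hx, deriv_value]
    by_cases h : x = 0
    · rw [if_pos h, if_pos h, map_neg, map_pow, map_neg, map_one]
    · rw [if_neg h, if_neg h, map_zero]
  rw [gv, h1, hx]
  by_cases h : x = 0
  · subst h
    rw [if_pos rfl, if_pos rfl]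
    obtain ⟨q', hq'⟩ := Finset.card_eq_one.mp hx
    have h2 := forced_eq hr h3 hq'
    have h3' := card_Yt (r := r) U
    have h4 := hside q' hq'
    have hq'U : q' ∈ U := by
      have : q' ∈ Fr r r' w U := hq' ▸ Finset.mem_singleton_self q'
      exact ((mem_Fr_iff hr h3).mp this).1
    rw [h2]
    by_cases hY : q' ∈ Yt r
    · have ht' : t = true := h4.mp hY
      subst ht'
      rw [Finset.erase_eq_of_notMem (fun h => (Finset.mem_sdiff.mp h).2 hY), kap, if_pos rfl,
        ← h3']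
      have e : ∀ a b : ℕ, -(-1 : ℚ) ^ (a + b) * ((-1) ^ a * -(-1) ^ b) = 1 := by
        intro a b
        have : ((-1 : ℚ) ^ (a + b)) * (-1) ^ (a + b) = 1 := by
          rw [← mul_pow]
          norm_num
        rw [pow_add] at this ⊢
        linarith
      exact e _ _
    · have ht' : t = false := by
        cases t
        · rfl
        · exact absurd (h4.mpr rfl) hY
      subst ht'
      have h5 : q' ∈ U \ Yt r := Finset.mem_sdiff.mpr ⟨hq'U, hY⟩
      rw [kap, if_neg (by decide), ← h3', ← Finset.card_erase_add_one h5]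
      have e : ∀ a b : ℕ, (-1 : ℚ) ^ (a + (b + 1)) * ((-1) ^ a * -(-1) ^ b) = 1 := by
        intro a b
        have : ((-1 : ℚ) ^ (a + b)) * (-1) ^ (a + b) = 1 := by
          rw [← mul_pow]
          norm_num
        rw [← add_assoc, pow_succ]
        rw [pow_add] at this ⊢
        linarith
      exact e _ _
  · rw [if_neg h, if_neg (by omega), mul_zero, mul_zero]

end val

end Pool.Agent.Lib.MP_5bc52d_co.Height2
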