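import Mathlib
import Pool.Agent.Lib.MP_5bc52d_co.Height2.Main

/-!
# Posets without chains of three elements: the irreducibility criterion
-/

open Finset Polynomial

set_option linter.unusedSectionVars false

namespace Pool.Agent.Lib.MP_5bc52d_co.Height2

open Splitting Cyc Cut Key

variable {P : Type*} [Fintype P] [DecidableEq P]
variable {Q : Subring R} {r r' : P → P → Prop}

/-- the criterion -/
theorem irreducible_flat (hQ : ∀ F : R, F ∈ Q ↔ IsQS F)
    (ht : ∀ x y z, r x y → r y z → r x z) (hr : ∀ x y, r' x y ↔ r y x) (hi : ∀ x, ¬ r x x)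
    {w w' : P → ℤ} (hw : Function.Injective w) (h3 : ∀ a b c, r a b → ¬ r b c)
    {S S' : Splitting Q} {Γ : Finset P → Q}
    (hE : ∀ U k, S.qp k (Γ U) = ∑ I ∈ (wks r w U) with I.card = k, Γ (U \ I))
    (hE' : ∀ U k, S'.qp k (Γ U) = ∑ I ∈ (wks r' w' U) with I.card = k, Γ (U \ I))
    (hempty : Γ ∅ = 1) (hhom : ∀ U, Γ U ∈ homQ Q U.card)
    (hS : ∀ (d : ℕ) (f : Q), f ∈ homQ Q d → ∀ k : ℕ, k ≤ d → S.qp k f ∈ homQ Q (d - k))
    (hS' : ∀ (d : ℕ) (f : Q), f ∈ homQ Q d → ∀ k : ℕ, k ≤ d → S'.qp k f ∈ homQ Q (d - k))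
    (hpair : ∀ f ∈ homQ Q 1, S.qp 1 f = S'.qp 1 f)
    (hconn : ∀ V : Finset P, V.Nonempty → (∀ x ∈ V, ∀ y, (r x y ∨ r y x) → y ∈ V) → V = univ)
    (hne : Nonempty P) (t : Bool)
    (hside : ∀ q, (∀ q', (FR r w q').card ≤ (FR r w q).card) → ((∃ a, r a q) ↔ t = true)) :
    Irreducible (Γ univ) := by
  classical
  obtain ⟨q₀, -, hq₀⟩ := Finset.exists_max_image (univ : Finset P) (fun q => (FR r w q).card)
    Finset.univ_nonempty
  have hmax : ∀ q', (FR r w q').card ≤ (FR r w q₀).card := fun q' =>
    hq₀ q' (Finset.mem_univ _)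
  set ρ : ℕ := (FR r w q₀).card with hρ
  have hρ1 : 1 ≤ ρ := Finset.card_pos.mpr ⟨q₀, self_mem_FR _⟩
  -- the value for sets of size `ρ`
  have hbase : ∀ U : Finset P, U.card = ρ →
      kap t ρ * gv r S S' Γ ρ 0 U = if (Fr r r' w U).card = 1 then 1 else 0 := by
    intro U hU
    have h1 := gv_zero ht hr hi hw h3 S S' Γ hE hempty t (U := U)
      (Finset.card_pos.mp (by omega)) (fun q hq => ?_)
    · rw [hU] at h1
      exact h1
    · have h2 : U ⊆ FR r w q := by
        apply sub_FR hi hw
        intro u hu hs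
        have : u ∈ Fr r r' w U := (mem_Fr_iff hr h3).mpr ⟨hu, hs⟩
        rw [hq] at this
        exact Finset.mem_singleton.mp this
      have h4 := Finset.card_le_card h2
      rw [mem_Yt]
      apply hside
      intro q'
      have := hmax q'
      omega
  have hpos : ∀ (m : ℕ) (U : Finset P), U.card = ρ + m → 0 ≤ kap t ρ * gv r S S' Γ ρ m U := by
    intro m
    induction m with
    | zero =>
      intro U hU
      rw [hbase U hU]
      split_ifs
      · exact zero_le_one
      · exact le_rfl
    | succ m ih =>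
      intro U hU
      rw [gv_succ hr hi h3 S S' Γ hE hE', Finset.mul_sum]
      apply Finset.sum_nonneg
      intro x hx
      apply ih
      rw [Finset.card_erase_of_mem (Finset.mem_sdiff.mp hx).1]
      omega
  have hex : ∀ m : ℕ, ρ + m ≤ Fintype.card P → ∃ U : Finset P, U.card = ρ + m ∧
      0 < kap t ρ * gv r S S' Γ ρ m U := by
    intro m
    induction m with
    | zero =>
      intro _
      refine ⟨FR r w q₀, rfl, ?_⟩
      rw [hbase _ rfl, Fr_FR hr hi h3, Finset.card_singleton, if_pos rfl]
      exact zero_lt_one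
    | succ m ih =>
      intro hm
      obtain ⟨U, hU, hgU⟩ := ih (by omega)
      have hUne : U.Nonempty := Finset.card_pos.mp (by omega)
      have hUu : U ≠ univ := by
        intro h
        rw [h, Finset.card_univ] at hU
        omega
      have h1 : ∃ x ∈ U, ∃ y, (r x y ∨ r y x) ∧ y ∉ U := by
        by_contra hcon
        push Not at hcon
        exact hUu (hconn U hUne hcon)
      obtain ⟨x, hx, y, hxy, hy⟩ := h1
      refine ⟨insert y U, by rw [Finset.card_insert_of_notMem hy, hU]; rfl, ?_⟩
      rw [gv_succ hr hi h3 S S' Γ hE hE', Finset.mul_sum]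
      have hyin : y ∈ insert y U \ (mins r (insert y U) ∩ mins r' (insert y U)) := by
        refine Finset.mem_sdiff.mpr ⟨Finset.mem_insert_self _ _, fun h => ?_⟩
        rw [Finset.mem_inter, mem_mins, mem_mins] at h
        rcases hxy with h' | h'
        · exact h.1.2 x (Finset.mem_insert_of_mem hx) h'
        · exact h.2.2 x (Finset.mem_insert_of_mem hx) ((hr _ _).mpr h')
      refine lt_of_lt_of_le hgU ?_
      have h2 : kap t ρ * gv r S S' Γ ρ m U =
          kap t ρ * gv r S S' Γ ρ m ((insert y U).erase y) := by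
        rw [Finset.erase_insert hy]
      rw [h2]
      refine Finset.single_le_sum
        (f := fun z => kap t ρ * gv r S S' Γ ρ m ((insert y U).erase z)) ?_ hyin
      intro z hz
      apply hpos
      rw [Finset.card_erase_of_mem (Finset.mem_sdiff.mp hz).1,
        Finset.card_insert_of_notMem hy, hU]
      rfl
  have hρn : ρ ≤ Fintype.card P := by
    rw [hρ, ← Finset.card_univ]
    exact Finset.card_le_card (Finset.subset_univ _)
  obtain ⟨U, hU, hgU⟩ := hex (Fintype.card P - ρ) (by omega)
  have hUu : U = univ := by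
    apply Finset.eq_univ_of_card
    omega
  subst hUu
  refine irreducible_of_kill hQ hS hS' hpair S.ev_one_Theta₁ ρ (Fintype.card P - ρ)
    (Fintype.card P) (by omega) (by rw [← Finset.card_univ]; exact hhom univ) ?_
  intro h0
  have h1 : gv r S S' Γ ρ (Fintype.card P - ρ) univ = 0 := by
    rw [gv, cv, h0, mul_zero]
  rw [h1, mul_zero] at hgU
  exact lt_irrefl _ hgU

end Pool.Agent.Lib.MP_5bc52d_co.Height2
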