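import Mathlib
import Pool.Agent.Lib.MP_5bc52d_co.Height2.Pos
import Pool.Agent.Lib.MP_5bc52d_co.Key.S2

/-!
# Labelled posets without chains of three elements

Let `U` be a connected finite labelled poset without chains of three elements. From an element we
may go to a comparable element with a larger label (or, for the other kind, a smaller label). If
all the elements from which the largest number of elements can be reached are minimal, or if all
of them are maximal, then the generating function is irreducible.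
-/

open Finset Polynomial

set_option linter.unusedSectionVars false

namespace Pool.Agent.Lib.MP_5bc52d_co.Height2

open Splitting Cyc Cut Key

theorem FR_swap {P : Type*} [Fintype P] [DecidableEq P] {r r' : P → P → Prop}
    (hr : ∀ x y, r' x y ↔ r y x) (w : P → ℤ) (x : P) : FR r' w x = FR r w x := by
  have h : Stp r' w = Stp r w := by
    funext a b
    apply propext
    rw [Stp, Stp, hr, hr, or_comm]
  ext y
  rw [mem_FR, mem_FR, h]

section pair
variable {Q : Subring R}

theorem qp_pair (hQ : ∀ F : R, F ∈ Q ↔ IsQS F) (f : Q) (hf : f ∈ homQ Q 1) :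
    (bottom hQ).qp 1 f = (top hQ).qp 1 f := by
  have h := lo_hi_pair hQ true 1 f hf
  change ((bottom hQ).E f).coeff 1 = ((top hQ).E f).coeff 1 at h
  rwa [coeff_E, coeff_E] at h

end pair

section univ
variable {P : Type*} [Fintype P] [DecidableEq P] [PartialOrder P]

/-- the number of elements which can be reached from `q` -/
noncomputable def rn (ω : P → ℕ) (k : Bool) (q : P) : ℕ :=
  (FR (fun a b : P => a < b) (wt ω k) q).card

theorem irreducible_univ {Q : Subring R} (hQ : ∀ F : R, F ∈ Q ↔ IsQS F) {ω : P → ℕ}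
    (hω : Function.Injective ω) (hne : Nonempty P)
    (hconn : ∀ V : Finset P, V.Nonempty → (∀ x ∈ V, ∀ y, (x < y ∨ y < x) → y ∈ V) → V = univ)
    (h3 : ∀ a b c : P, a < b → ¬ b < c) (k : Bool)
    (h : (∀ q : P, (∀ q', rn ω k q' ≤ rn ω k q) → ∀ a, ¬ a < q) ∨
      ∀ q : P, (∀ q', rn ω k q' ≤ rn ω k q) → ∀ a, ¬ q < a) :
    Irreducible (GamQ hQ ω (univ : Finset P)) := by
  have hside : ∃ t : Bool, ∀ q : P, (∀ q', rn ω k q' ≤ rn ω k q) →
      (if k then ((∃ a, a < q) ↔ t = true) else ((∃ a, q < a) ↔ t = true)) := by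
    by_cases hiso : ∃ q : P, (∀ a, ¬ a < q) ∧ ∀ a, ¬ q < a
    · obtain ⟨q, hq1, hq2⟩ := hiso
      have h1 : ({q} : Finset P) = univ := by
        apply hconn {q} (Finset.singleton_nonempty q)
        intro x hx y hxy
        rw [Finset.mem_singleton] at hx
        subst hx
        rcases hxy with h | h
        · exact absurd h (hq2 y)
        · exact absurd h (hq1 y)
      have h2 : ∀ x : P, x = q := fun x => by
        have : x ∈ ({q} : Finset P) := h1 ▸ Finset.mem_univ x
        exact Finset.mem_singleton.mp this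
      have h4 : ∀ x y : P, ¬ x < y := fun x y h => by
        rw [h2 x, h2 y] at h
        exact lt_irrefl q h
      refine ⟨false, fun q' _ => ?_⟩
      cases k
      · simp [h4]
      · simp [h4]
    · push Not at hiso
      have hab : ∀ q : P, (∀ a, ¬ a < q) → ∃ a, q < a := hiso
      rcases h with h | h
      · cases k
        · refine ⟨true, fun q hq => ?_⟩
          simpa using hab q (h q hq)
        · refine ⟨false, fun q hq => ?_⟩
          simpa using h q hq
      · cases k
        · refine ⟨false, fun q hq => ?_⟩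
          simpa using h q hq
        · refine ⟨true, fun q hq => ?_⟩
          simp only [if_true, iff_true]
          by_contra hcon
          push Not at hcon
          obtain ⟨a, ha⟩ := hab q hcon
          exact h q hq a ha
  obtain ⟨t, hside⟩ := hside
  have hempty : GamQ hQ ω (∅ : Finset P) = 1 := GamQ_empty hQ ω hne.some
  cases k
  · refine irreducible_flat hQ (r := fun a b : P => b < a) (r' := fun a b : P => a < b)
      (w := wt ω false) (w' := fun p => (ω p : ℤ))
      (fun x y z h1 h2 => lt_trans h2 h1) (fun x y => Iff.rfl) (fun x => lt_irrefl x)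
      (wt_inj hω false) (fun a b c h1 h2 => h3 c b a h2 h1) (S := top hQ) (S' := bottom hQ)
      (top_rec hQ ω hω) (bottom_rec hQ ω hω) hempty (GamQ_homQ hQ ω)
      (fun d f hf k hk => (top_qp_homQ hQ d f hf k).1 hk)
      (fun d f hf k hk => (bottom_qp_homQ hQ d f hf k).1 hk)
      (fun f hf => (qp_pair hQ f hf).symm) ?_ hne t ?_
    · intro V hV h
      exact hconn V hV fun x hx y hxy => h x hx y hxy.symm
    · intro q hq
      refine hside q fun q' => ?_
      have h1 := hq q'
      rw [FR_swap (r := fun a b : P => a < b) (r' := fun a b : P => b < a) (fun x y => Iff.rfl),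
        FR_swap (r := fun a b : P => a < b) (r' := fun a b : P => b < a) (fun x y => Iff.rfl)]
        at h1
      exact h1
  · refine irreducible_flat hQ (r := fun a b : P => a < b) (r' := fun a b : P => b < a)
      (w := wt ω true) (w' := fun p => -(ω p : ℤ))
      (fun x y z h1 h2 => lt_trans h1 h2) (fun x y => Iff.rfl) (fun x => lt_irrefl x)
      (wt_inj hω true) h3 (S := bottom hQ) (S' := top hQ)
      (bottom_rec hQ ω hω) (top_rec hQ ω hω) hempty (GamQ_homQ hQ ω)
      (fun d f hf k hk => (bottom_qp_homQ hQ d f hf k).1 hk)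
      (fun d f hf k hk => (top_qp_homQ hQ d f hf k).1 hk)
      (fun f hf => qp_pair hQ f hf) hconn hne t ?_
    intro q hq
    exact hside q hq

end univ

section sub
variable {P : Type*} [PartialOrder P]

/-- A step inside `U` from an element to a comparable one with a larger label (`k = true`) or a
smaller label (`k = false`). -/
def Step (ω : P → ℕ) (k : Bool) (U : Finset P) (a b : P) : Prop :=
  a ∈ U ∧ b ∈ U ∧ (a < b ∨ b < a) ∧ (if k then ω a < ω b else ω b < ω a)

/-- The number of elements of `U` which can be reached from `a` by steps. -/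
noncomputable def reach (ω : P → ℕ) (k : Bool) (U : Finset P) (a : P) : ℕ :=
  Nat.card {b // Relation.ReflTransGen (Step ω k U) a b}

/-- The elements of `U` from which the largest number of elements can be reached are all minimal,
or all maximal. -/
def OneSided (ω : P → ℕ) (k : Bool) (U : Finset P) : Prop :=
  (∀ a ∈ U, (∀ b ∈ U, reach ω k U b ≤ reach ω k U a) → ∀ c ∈ U, ¬ c < a) ∨
    ∀ a ∈ U, (∀ b ∈ U, reach ω k U b ≤ reach ω k U a) → ∀ c ∈ U, ¬ a < c

variable [Fintype P] [DecidableEq P]

theorem step_iff (ω : P → ℕ) (k : Bool) (U : Finset P) (x y : {x // x ∈ U}) :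
    Step ω k U x y ↔
      Stp (fun a b : {x // x ∈ U} => a < b) (wt (fun x : {x // x ∈ U} => ω x) k) x y := by
  rw [Step, Stp, wt_lt]
  constructor
  · rintro ⟨-, -, h1, h2⟩
    exact ⟨h1, h2⟩
  · rintro ⟨h1, h2⟩
    exact ⟨x.2, y.2, h1, h2⟩

theorem reach_iff (ω : P → ℕ) (k : Bool) (U : Finset P) (x : {x // x ∈ U}) (b : P) :
    Relation.ReflTransGen (Step ω k U) x b ↔ ∃ hb : b ∈ U,
      (⟨b, hb⟩ : {x // x ∈ U}) ∈
        FR (fun a b : {x // x ∈ U} => a < b) (wt (fun x : {x // x ∈ U} => ω x) k) x := by
  constructor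
  · intro h
    induction h with
    | refl => exact ⟨x.2, self_mem_FR _⟩
    | tail _ hcd ih =>
      obtain ⟨hc, ih⟩ := ih
      refine ⟨hcd.2.1, mem_FR.mpr ?_⟩
      exact (mem_FR.mp ih).tail ((step_iff ω k U ⟨_, hc⟩ ⟨_, hcd.2.1⟩).mp hcd)
  · rintro ⟨hb, h⟩
    have h1 : ∀ y : {x // x ∈ U}, Relation.ReflTransGen (Stp (fun a b : {x // x ∈ U} => a < b)
        (wt (fun x : {x // x ∈ U} => ω x) k)) x y →
        Relation.ReflTransGen (Step ω k U) x.1 y.1 := by
      intro y hy
      induction hy with
      | refl => exact Relation.ReflTransGen.refl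
      | tail _ hcd ih => exact ih.tail ((step_iff ω k U _ _).mpr hcd)
    exact h1 _ (mem_FR.mp h)

theorem reach_eq (ω : P → ℕ) (k : Bool) (U : Finset P) (x : {x // x ∈ U}) :
    reach ω k U x = rn (fun x : {x // x ∈ U} => ω x) k x := by
  rw [reach, rn, ← Fintype.card_coe, ← Nat.card_eq_fintype_card]
  refine Nat.card_congr ⟨fun b => ⟨⟨b.1, ((reach_iff ω k U x b.1).mp b.2).1⟩,
    ((reach_iff ω k U x b.1).mp b.2).2⟩, fun y => ⟨y.1.1, (reach_iff ω k U x y.1.1).mpr
    ⟨y.1.2, y.2⟩⟩, fun b => ?_, fun y => ?_⟩
  · rfl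
  · rfl

/-- The generating function of a connected labelled poset without chains of three elements is
irreducible if `OneSided` holds for one of the two kinds of steps. -/
theorem irreducible_height2 {Q : Subring R} (hQ : ∀ F : R, F ∈ Q ↔ IsQS F) {ω : P → ℕ}
    (hω : Function.Injective ω) (U : Finset P) (hne : U.Nonempty) (hconn : Conn U)
    (hflat : ∀ a ∈ U, ∀ b ∈ U, ∀ c ∈ U, a < b → ¬ b < c) (k : Bool) (h : OneSided ω k U) :
    Irreducible (GamQ hQ ω U) := by
  rw [GamQ_subtype]
  obtain ⟨x₀, hx₀⟩ := hne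
  have hmax : ∀ q : {x // x ∈ U},
      (∀ q', rn (fun x : {x // x ∈ U} => ω x) k q' ≤ rn (fun x : {x // x ∈ U} => ω x) k q) →
      ∀ b ∈ U, reach ω k U b ≤ reach ω k U q := by
    intro q hq b hb
    have h1 := hq ⟨b, hb⟩
    rw [← reach_eq, ← reach_eq] at h1
    exact h1
  refine irreducible_univ hQ (ω := fun x : {x // x ∈ U} => ω x)
    (fun a b hab => Subtype.ext (hω hab)) ⟨⟨x₀, hx₀⟩⟩ ?_ ?_ k ?_
  · intro V hV hcl
    have h1 : V.image Subtype.val = U := by
      apply hconn
      · intro x hx
        rw [Finset.mem_image] at hx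
        obtain ⟨y, -, rfl⟩ := hx
        exact y.2
      · exact hV.image _
      · intro x hx y hy hxy
        rw [Finset.mem_image] at hx ⊢
        obtain ⟨x', hx', rfl⟩ := hx
        exact ⟨⟨y, hy⟩, hcl x' hx' ⟨y, hy⟩ hxy, rfl⟩
    apply Finset.eq_univ_of_forall
    intro x
    have h2 : x.1 ∈ V.image Subtype.val := h1.symm ▸ x.2
    rw [Finset.mem_image] at h2
    obtain ⟨y, hy, hyx⟩ := h2
    rwa [← Subtype.ext hyx]
  · intro a b c h1 h2
    exact hflat a a.2 b b.2 c c.2 h1 h2
  · rcases h with h | h
    · left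
      intro q hq a
      exact h q q.2 (hmax q hq) a a.2
    · right
      intro q hq a
      exact h q q.2 (hmax q hq) a a.2

end sub

end Pool.Agent.Lib.MP_5bc52d_co.Height2
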