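import Mathlib
import Pool.Agent.Lib.MP_5bc52d_co.H3.Words
import Pool.Agent.Lib.MP_5bc52d_co.Key.TopRule

/-!
# Words which cancel, and the trivial word principle

If a word becomes the empty word modulo `e`, then the value on it of every nonunit homogeneous
element is divisible by `e`; hence the value of a product of two such elements is divisible by
`e ^ 2`.
-/

open Finset Polynomial

set_option linter.unusedSectionVars false

namespace Pool.Agent.Lib.MP_5bc52d_co.Key

open Splitting Cyc Cut

section abs
variable {A : Type*} [CommRing A] {B : Type*} [CommRing B] {B' : Type*} [CommRing B']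

/-- opposite letters are inverse to each other -/
def InvF (F : Bool → A →+* A[X]) : Prop :=
  ∀ (c : Bool) (f : A), (eval₂RingHom (F (!c)) X) (F c f) = C f

/-- the first letter of a word -/
theorem evL_cons (cc : A →+* B) (F : Bool → A →+* A[X]) (q : Bool × B) (l : List (Bool × B)) :
    evL cc F (q :: l) = (Polynomial.eval₂RingHom (evL cc F l)
      ((if q.1 = true then 1 else -1) * q.2)).comp (F q.1) := rfl

theorem evL_cancel {cc : A →+* B} {F : Bool → A →+* A[X]} (hF : InvF F) (c : Bool) (y : B)
    (l : List (Bool × B)) : evL cc F ((c, y) :: (!c, -y) :: l) = evL cc F l := by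
  rw [evL_cons, evL_cons]
  have hz : (if (!c) = true then (1 : B) else -1) * (-y) = (if c = true then 1 else -1) * y := by
    cases c <;> simp
  simp only [hz]
  set z : B := (if c = true then (1 : B) else -1) * y with hzd
  have h1 : eval₂RingHom ((eval₂RingHom (evL cc F l) z).comp (F (!c))) z =
      (eval₂RingHom (evL cc F l) z).comp (eval₂RingHom (F (!c)) X) := by
    apply Polynomial.ringHom_ext
    · intro a
      simp
    · simp
  rw [h1]
  apply RingHom.ext
  intro f
  rw [RingHom.comp_apply, RingHom.comp_apply, hF]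
  simp

theorem evL_append_congr {cc : A →+* B} {F : Bool → A →+* A[X]} (l : List (Bool × B))
    {l₁ l₂ : List (Bool × B)} (h : evL cc F l₁ = evL cc F l₂) :
    evL cc F (l ++ l₁) = evL cc F (l ++ l₂) := by
  induction l with
  | nil => exact h
  | cons q l ih =>
    rw [List.cons_append, List.cons_append, evL_cons, evL_cons, ih]

/-- the inverse word -/
def mir (l : List (Bool × B)) : List (Bool × B) :=
  (l.map (fun q => (!q.1, -q.2))).reverse

theorem mir_cons (q : Bool × B) (l : List (Bool × B)) :
    mir (q :: l) = mir l ++ [(!q.1, -q.2)] := by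
  rw [mir, List.map_cons, List.reverse_cons, mir]

theorem evL_mir {cc : A →+* B} {F : Bool → A →+* A[X]} (hF : InvF F) (l : List (Bool × B)) :
    ∀ l₂ : List (Bool × B), evL cc F (l ++ (mir l ++ l₂)) = evL cc F l₂ := by
  induction l with
  | nil => intro l₂; rfl
  | cons q l ih =>
    intro l₂
    rw [mir_cons, List.append_assoc, List.cons_append, evL_cons, ih, List.singleton_append,
      ← evL_cons]
    exact evL_cancel hF q.1 q.2 l₂

/-- change of the ring of letter values -/
theorem evL_map (cc : A →+* B) (F : Bool → A →+* A[X]) (π : B →+* B') (l : List (Bool × B)) :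
    π.comp (evL cc F l) = evL (π.comp cc) F (l.map (fun q => (q.1, π q.2))) := by
  induction l with
  | nil => rfl
  | cons q l ih =>
    rw [List.map_cons, evL_cons, evL_cons, ← ih, ← RingHom.comp_assoc]
    congr 1
    apply Polynomial.ringHom_ext
    · intro a
      simp
    · rcases q with ⟨c, y⟩
      cases c <;> simp

/-- A word which cancels at `e = 0`: its value on a nonunit has no constant term. -/
theorem evL_coeff_zero {cc : A →+* B} {F : Bool → A →+* A[X]} (hF : InvF F)
    (l : List (Bool × B)) (c : Bool) (t : B) {f : A} (hf : cc f = 0) :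
    (evL ((C : B →+* B[X]).comp cc) F
      (l.map (fun q => (q.1, (C q.2 : B[X]))) ++ ([(!c, C t), (c, X - C t)] ++
        (mir l).map (fun q => (q.1, (C q.2 : B[X])))) ) f).coeff 0 = 0 := by
  have h1 := congrArg (fun χ : A →+* B => χ f) (evL_map ((C : B →+* B[X]).comp cc) F
    (constantCoeff : B[X] →+* B) (l.map (fun q => (q.1, (C q.2 : B[X]))) ++
      ([(!c, C t), (c, X - C t)] ++ (mir l).map (fun q => (q.1, (C q.2 : B[X]))))))
  simp only [RingHom.comp_apply] at h1
  have h0 : (constantCoeff : B[X] →+* B).comp ((C : B →+* B[X]).comp cc) = cc := by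
    apply RingHom.ext
    intro a
    simp
  rw [h0] at h1
  rw [← constantCoeff_apply, h1]
  have h2 : (l.map (fun q => (q.1, (C q.2 : B[X]))) ++
      ([(!c, C t), (c, X - C t)] ++ (mir l).map (fun q => (q.1, (C q.2 : B[X]))))).map
        (fun q => (q.1, (constantCoeff : B[X] →+* B) q.2)) =
      l ++ ((!c, t) :: (!!c, -t) :: mir l) := by
    simp [List.map_append, Function.comp_def]
  rw [h2, evL_append_congr l (evL_cancel hF (!c) t (mir l))]
  have h3 := evL_mir (cc := cc) hF l []
  rw [List.append_nil] at h3
  rw [h3]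
  exact hf

/-- **the trivial word principle** -/
theorem evL_mul_coeff_one {cc : A →+* B} {F : Bool → A →+* A[X]} (hF : InvF F)
    (l : List (Bool × B)) (c : Bool) (t : B) {f g : A} (hf : cc f = 0) (hg : cc g = 0) :
    (evL ((C : B →+* B[X]).comp cc) F
      (l.map (fun q => (q.1, (C q.2 : B[X]))) ++ ([(!c, C t), (c, X - C t)] ++
        (mir l).map (fun q => (q.1, (C q.2 : B[X])))) ) (f * g)).coeff 1 = 0 := by
  rw [map_mul, mul_coeff_one, evL_coeff_zero hF l c t hf, evL_coeff_zero hF l c t hg, zero_mul,
    mul_zero, add_zero]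

end abs

section inst
variable {Q : Subring R} (hQ : ∀ F : R, F ∈ Q ↔ IsQS F)

theorem lo_inv : InvF (lo hQ) := by
  intro c f
  cases c
  · exact (bottom hQ).Ehat_N f
  · exact (bottom hQ).Nhat_E f

variable {P : Type*} [Fintype P] [DecidableEq P] [PartialOrder P]

/-- If the value of a partition generating function on a word which cancels at `e = 0` has a
nonzero linear term, then the function is irreducible. -/
theorem irreducible_of_word {ω : P → ℕ} (x : P) {U : Finset P} (hU : U.Nonempty)
    {B : Type*} [CommRing B] [Algebra ℚ B]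
    (l : List (Bool × B)) (c : Bool) (t : B)
    (h : (evL ((C : B →+* B[X]).comp ((algebraMap ℚ B).comp (cc Q))) (lo hQ)
      (l.map (fun q => (q.1, (C q.2 : B[X]))) ++ ([(!c, C t), (c, X - C t)] ++
        (mir l).map (fun q => (q.1, (C q.2 : B[X])))) ) (GamQ hQ ω U)).coeff 1 ≠ 0) :
    Irreducible (GamQ hQ ω U) := by
  have hD : IsDomain R := NoZeroDivisors.to_isDomain R
  have hDQ : IsDomain Q := inferInstance
  have key : ∀ f g : Q, GamQ hQ ω U = f * g → IsUnit f ∨ IsUnit g := by
    intro f g hfg
    by_contra hcon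
    push Not at hcon
    have h0 : f * g ≠ 0 := hfg ▸ GamQ_ne_zero hQ ω U
    obtain ⟨a, b, -, hf, hg⟩ := homQ_factor hQ h0 (hfg ▸ GamQ_homQ hQ ω U)
    have hz : ∀ {k : Q} {d : ℕ}, k ∈ homQ Q d → ¬ IsUnit k → k ≠ 0 →
        ((algebraMap ℚ B).comp (cc Q)) k = 0 := by
      intro k d hk hu hk0
      rw [RingHom.comp_apply, cc_homQ hk, map_zero]
      rintro rfl
      exact hu (by
        apply isUnit_of_homQ_zero hQ hk
        exact hk0)
    apply h
    rw [hfg]
    exact evL_mul_coeff_one (lo_inv hQ) l c t (hz hf hcon.1 (left_ne_zero_of_mul h0))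
      (hz hg hcon.2 (right_ne_zero_of_mul h0))
  refine ⟨fun hu => ?_, fun {f g} hfg => key f g hfg⟩
  have h1 := isUnit_mem_homQ hQ hu
  have h2 := homQ_unique (GamQ_ne_zero hQ ω U) h1 (GamQ_homQ hQ ω U)
  have h3 := Finset.card_pos.mpr hU
  omega

end inst

end Pool.Agent.Lib.MP_5bc52d_co.Key
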